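import Pool.Agent.N804.FGlue

/-!
# An upper bound for Montgomery's function on the windows of one length

The pair correlation conjecture is equivalent to an upper bound for the integrals of Montgomery's
function `F(α, T)` over the windows `[b, b + δ]`, `b > 1 - δ`, of one fixed length `δ < 1`. No
hypothesis is assumed: the zeros may be off the critical line or multiple.
-/

open Filter Topology MeasureTheory

namespace Pool.Agent.Results.MP_f58427_nt.FourierUpper

/-- multiplicity of `s` as a zero of the Riemann zeta function (order of vanishing at `s`) -/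
noncomputable def zmult (s : ℂ) : ℕ := analyticOrderNatAt riemannZeta s

/-- the nontrivial zeros of `ζ` -/
def ZZ : Set ℂ := {s : ℂ | riemannZeta s = 0 ∧ 0 < s.re ∧ s.re < 1}

/-- `N*(T, a)`: the number of ordered pairs `(γ, γ')` of ordinates of nontrivial zeros, counted
with multiplicity, with `0 < γ ≤ T` and `0 < γ - γ' ≤ 2πa / log T` -/
noncomputable def Nstar (T a : ℝ) : ℕ :=
  ∑ᶠ p ∈ {p : ℂ × ℂ | p.1 ∈ ZZ ∧ p.2 ∈ ZZ ∧ 0 < p.1.im ∧ p.1.im ≤ T ∧
    0 < p.1.im - p.2.im ∧ p.1.im - p.2.im ≤ 2 * Real.pi * a / Real.log T}, zmult p.1 * zmult p.2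

/-- the value of the conjecture, `(1 / 2π) ∫₀ᵃ (1 - (sin πu / πu)²) du` -/
noncomputable def P (a : ℝ) : ℝ :=
  (1 / (2 * Real.pi)) * ∫ u in (0 : ℝ)..a, (1 - (Real.sin (Real.pi * u) / (Real.pi * u)) ^ 2)

/-- Montgomery's function of the ordinates,
`F(α, T) = (T log T / 2π)⁻¹ ∑ cos(α (γ - γ') log T) w(γ - γ')` with `w(u) = 4 / (4 + u²)`, the sum
over all ordered pairs of ordinates in `(0, T]` of nontrivial zeros, counted with multiplicity -/
noncomputable def F (α T : ℝ) : ℝ :=
  (∑ᶠ p ∈ {p : ℂ × ℂ | p.1 ∈ ZZ ∧ p.2 ∈ ZZ ∧ 0 < p.1.im ∧ p.1.im ≤ T ∧ 0 < p.2.im ∧ p.2.im ≤ T},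
    (zmult p.1 : ℝ) * (zmult p.2 : ℝ) *
      (Real.cos (α * (p.1.im - p.2.im) * Real.log T) * (4 / (4 + (p.1.im - p.2.im) ^ 2)))) /
    (T * Real.log T / (2 * Real.pi))

/-- Let `l` be `T → ∞`, or more generally a countably generated filter contained in it (for
instance a sequence of heights tending to infinity), and let `0 < δ < 1`. The following are
equivalent. (1) The pair correlation conjecture along `l`. (2) For every (3) for almost every
`b > 1 - δ`: `limsup ∫_b^{b+δ} F(α, T) dα ≤ ∫_b^{b+δ} min(α, 1) dα`. (4) For all `0 < b < c`,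
`∫_b^c F(α, T) dα → ∫_b^c min(α, 1) dα`. -/
theorem result (l : Filter ℝ) (hl : l ≤ atTop) (hg : l.IsCountablyGenerated) (δ : ℝ) (hδ : 0 < δ)
    (hδ1 : δ < 1) : List.TFAE [
    ∀ a : ℝ, 0 < a → Tendsto (fun T : ℝ => (Nstar T a : ℝ) / (T * Real.log T)) l (𝓝 (P a)),
    ∀ b : ℝ, 1 - δ < b → ∀ ε : ℝ, 0 < ε → ∀ᶠ T : ℝ in l,
      ∫ α in b..(b + δ), F α T ≤ (∫ α in b..(b + δ), min α 1) + ε,
    ∀ᵐ b : ℝ, 1 - δ < b → ∀ ε : ℝ, 0 < ε → ∀ᶠ T : ℝ in l,
      ∫ α in b..(b + δ), F α T ≤ (∫ α in b..(b + δ), min α 1) + ε,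
    ∀ b c : ℝ, 0 < b → b < c →
      Tendsto (fun T : ℝ => ∫ α in b..c, F α T) l (𝓝 (∫ α in b..c, min α 1))] := by
  have hpi := Real.pi_pos
  have hP : ∀ a, P a = N804.PP a / (2 * Real.pi) := N804.val_eq
  have hF : ∀ α T, F α T = N804.FT T α := fun α T => N804.ft_eq α T
  have hmin : ∀ b c : ℝ, 0 < b → b ≤ c → ∫ α in b..c, min α 1 = ∫ α in b..c, min |α| 1 := by
    intro b c hb hbc
    refine intervalIntegral.integral_congr fun α hα => ?_
    rw [Set.uIcc_of_le hbc] at hα
    show min α 1 = min |α| 1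
    rw [abs_of_pos (by linarith [hα.1])]
  have hN : ∀ a : ℝ, ∀ᶠ T : ℝ in l,
      (Nstar T a : ℝ) / (T * Real.log T) = N804.CF T a / (2 * Real.pi) := by
    intro a
    obtain ⟨T₀, hT₀, h⟩ := N804.nstar_eq a
    filter_upwards [hl (eventually_ge_atTop T₀)] with T hT
    have hT10 : 10 ≤ T := hT₀.trans hT
    have hL : 0 < Real.log T := Real.log_pos (by linarith)
    have e : (Nstar T a : ℝ) = N804.CF T a * N804.XX T := h T hT
    rw [e]
    unfold N804.XX
    have : T ≠ 0 := by linarith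
    field_simp
  tfae_have 1 → 4 := by
    intro h b c hb hbc
    have h1 : ∀ a, 0 < a → Tendsto (fun T => N804.CF T a) l (𝓝 (N804.PP a)) := by
      intro a ha
      have h2 := (h a ha).mul_const (2 * Real.pi)
      rw [hP, div_mul_cancel₀ _ (by positivity)] at h2
      refine h2.congr' ?_
      filter_upwards [hN a] with T hT
      rw [hT, div_mul_cancel₀ _ (by positivity)]
    have h2 := N804.lower_half' hl (K := 0) (R := 1) (c := 1) one_pos fun a ha ε hε => by
      have h3 := (tendsto_order.1 (h1 a (by linarith))).1 (N804.PP a - ε) (by linarith)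
      filter_upwards [h3] with T hT
      rw [zero_mul, sub_zero]
      exact hT.le
    have h4 := N804.Q_to_F hl h1 h2.2 hb hbc
    rw [hmin b c hb hbc.le]
    simpa only [hF] using h4
  tfae_have 4 → 2 := by
    intro h b hb ε hε
    have h1 := (tendsto_order.1 (h b (b + δ) (by linarith) (by linarith))).2
      ((∫ α in b..(b + δ), min α 1) + ε) (by linarith)
    filter_upwards [h1] with T hT using hT.le
  tfae_have 2 → 3 := fun h => ae_of_all _ h
  tfae_have 3 → 1 := by
    intro h a ha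
    rw [hP]
    have h1 := N804.F_to_Q hl hδ hδ1 (by
      filter_upwards [h] with b hb hb1 ε hε
      have h2 := hb hb1 ε hε
      rw [hmin b (b + δ) (by linarith) (by linarith)] at h2
      simpa only [hF] using h2)
    refine ((h1.1 a ha).div_const (2 * Real.pi)).congr' ?_
    filter_upwards [hN a] with T hT
    exact hT.symm
  tfae_finish

end Pool.Agent.Results.MP_f58427_nt.FourierUpper
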