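import Pool.Agent.N804.Thm2

/-!
# One-sided bounds for the windows at large distances imply the pair correlation conjecture

No hypothesis is assumed: the three statements below are proved to be equivalent.
-/

open Filter Topology

namespace Pool.Agent.N804.Shelf.OneSidedFarWindows

/-- multiplicity of `s` as a zero of the Riemann zeta function (order of vanishing at `s`) -/
noncomputable def zmult (s : ℂ) : ℕ := analyticOrderNatAt riemannZeta s

/-- the nontrivial zeros of `ζ` -/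
def ZZ : Set ℂ := {s : ℂ | riemannZeta s = 0 ∧ 0 < s.re ∧ s.re < 1}

/-- `N(T; α, β)`: the number of ordered pairs of ordinates in `[0, T]`, counted with multiplicity,
with `(γ₁ - γ₂) (log T) / 2π` in `[α, β]` -/
noncomputable def N (T α β : ℝ) : ℕ :=
  ∑ᶠ p ∈ {p : ℂ × ℂ | p.1 ∈ ZZ ∧ p.2 ∈ ZZ ∧ 0 ≤ p.1.im ∧ p.1.im ≤ T ∧ 0 ≤ p.2.im ∧ p.2.im ≤ T ∧
    α ≤ (p.1.im - p.2.im) * Real.log T / (2 * Real.pi) ∧
    (p.1.im - p.2.im) * Real.log T / (2 * Real.pi) ≤ β}, zmult p.1 * zmult p.2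

/-- the number of zeros off the critical line with ordinate in `(0, T]`, with multiplicity -/
noncomputable def Noff (T : ℝ) : ℕ :=
  ∑ᶠ s ∈ {s : ℂ | s ∈ ZZ ∧ 0 < s.im ∧ s.im ≤ T ∧ s.re ≠ 1 / 2}, zmult s

/-- the integral of the pair correlation function over `[α, β]` -/
noncomputable def IF (α β : ℝ) : ℝ :=
  ∫ u in α..β, (1 - (Real.sin (Real.pi * u) / (Real.pi * u)) ^ 2)

/-- the main term without the integral, `T log T / 2π` -/
noncomputable def X (T : ℝ) : ℝ := T * Real.log T / (2 * Real.pi)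

/-- The following are equivalent. (1) The conjecture: `N(T; α, β) ∼ X(T) ∫_α^β F` for all
`0 < α < β`. (2) Almost all zeros are on the critical line (not assumed simple), and for some `K`,
`R` and `c, ℓ > 0`, `limsup N(T; α, β) / X(T) ≤ ∫_α^β F + K exp(-c α)` for all short windows at
large distances: `0 < α < β < α + ℓ`, `α ≥ R`. (3) Almost all zeros are on the critical line, and
for some `K`, `R` and `c, ℓ > 0`, `liminf N(T; α, β) / X(T) ≥ ∫_α^β F - K exp(-c α)` for all these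
windows. -/
theorem result : List.TFAE [
    ∀ α β : ℝ, 0 < α → α < β →
      Tendsto (fun T : ℝ => (N T α β : ℝ) / (X T * IF α β)) atTop (𝓝 1),
    Tendsto (fun T : ℝ => (Noff T : ℝ) / X T) atTop (𝓝 0) ∧
      ∃ K c R ℓ : ℝ, 0 < c ∧ 0 < ℓ ∧ ∀ α β : ℝ, R ≤ α → 0 < α → α < β → β < α + ℓ →
        ∀ ε : ℝ, 0 < ε → ∃ T₀ : ℝ, ∀ T : ℝ, T₀ ≤ T →
          (N T α β : ℝ) / X T ≤ IF α β + K * Real.exp (-(c * α)) + ε,
    Tendsto (fun T : ℝ => (Noff T : ℝ) / X T) atTop (𝓝 0) ∧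
      ∃ K c R ℓ : ℝ, 0 < c ∧ 0 < ℓ ∧ ∀ α β : ℝ, R ≤ α → 0 < α → α < β → β < α + ℓ →
        ∀ ε : ℝ, 0 < ε → ∃ T₀ : ℝ, ∀ T : ℝ, T₀ ≤ T →
          IF α β - K * Real.exp (-(c * α)) - ε ≤ (N T α β : ℝ) / X T] := by
  have hI : ∀ α β, IF α β = N804.PP β - N804.PP α := N804.val_win
  have hN : ∀ α β : ℝ, 0 < α → ∃ T₀ : ℝ, 10 ≤ T₀ ∧ ∀ T : ℝ, T₀ ≤ T →
      (N T α β : ℝ) = N804.NW T α β := fun α β hα => N804.win_eq hα β
  have hX : ∀ T, X T = N804.XX T := fun _ => rfl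
  have hO : ∀ T : ℝ, 1 < T → (Noff T : ℝ) / X T = N804.OF T := by
    intro T hT
    have e : (Noff T : ℝ) = N804.OF T * N804.XX T := N804.noff_eq hT
    rw [e, hX, mul_div_cancel_right₀ _ (N804.XX_pos hT).ne']
  have hOt : Tendsto (fun T : ℝ => (Noff T : ℝ) / X T) atTop (𝓝 0) → Tendsto N804.OF atTop (𝓝 0) :=
    fun h => h.congr' (by
      filter_upwards [eventually_gt_atTop 1] with T hT using hO T hT)
  have hOt' : Tendsto N804.OF atTop (𝓝 0) → Tendsto (fun T : ℝ => (Noff T : ℝ) / X T) atTop (𝓝 0) :=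
    fun h => h.congr' (by
      filter_upwards [eventually_gt_atTop 1] with T hT using (hO T hT).symm)
  -- from the conclusion to (1)
  have h1 : (∀ a, 0 < a → Tendsto (fun T => N804.CF T a) atTop (𝓝 (N804.PP a))) →
      ∀ α β : ℝ, 0 < α → α < β →
      Tendsto (fun T : ℝ => (N T α β : ℝ) / (X T * IF α β)) atTop (𝓝 1) := by
    intro h α β hα hβ
    have hpos := N804.PP_strict hα.le hβ
    have h2 := (N804.NW_tendsto h hα hβ).div_const (N804.PP β - N804.PP α)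
    rw [div_self hpos.ne'] at h2
    obtain ⟨T₀, _, hT₀⟩ := hN α β hα
    refine h2.congr' ?_
    filter_upwards [eventually_ge_atTop T₀] with T hT
    rw [hT₀ T hT, hI, hX, div_div]
  -- (1) in terms of the counting functions
  have h2 : (∀ α β : ℝ, 0 < α → α < β →
      Tendsto (fun T : ℝ => (N T α β : ℝ) / (X T * IF α β)) atTop (𝓝 1)) →
      ∀ α β : ℝ, 0 < α → α < β → ∀ ε : ℝ, 0 < ε → ∃ T₀ : ℝ, 10 ≤ T₀ ∧ ∀ T : ℝ, T₀ ≤ T →
        |(N T α β : ℝ) / X T - IF α β| ≤ ε := by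
    intro h α β hα hβ ε hε
    have hpos : 0 < IF α β := by rw [hI]; exact N804.PP_strict hα.le hβ
    obtain ⟨T₀, hT₀⟩ := Metric.tendsto_atTop.1 (h α β hα hβ) (ε / IF α β) (by positivity)
    refine ⟨max T₀ 10, le_max_right _ _, fun T hT => ?_⟩
    have h3 := (hT₀ T ((le_max_left _ _).trans hT)).le
    rw [Real.dist_eq] at h3
    have hXp : 0 < X T := N804.XX_pos (by linarith [(le_max_right T₀ 10).trans hT])
    have e : (N T α β : ℝ) / X T - IF α β = ((N T α β : ℝ) / (X T * IF α β) - 1) * IF α β := by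
      field_simp
    rw [e, abs_mul, abs_of_pos hpos]
    rwa [le_div_iff₀ hpos] at h3
  tfae_have 1 → 2 := by
    intro h
    have h3 := h2 h
    obtain ⟨-, h5⟩ := N804.win_exact (fun α β hα hβ ε hε => by
      obtain ⟨T₀, hT₀, h6⟩ := h3 α β hα hβ ε hε
      obtain ⟨T₁, _, hT₁⟩ := hN α β hα
      refine ⟨max T₀ T₁, fun T hT => ?_⟩
      have h7 := h6 T ((le_max_left _ _).trans hT)
      rw [hT₁ T ((le_max_right _ _).trans hT), hI] at h7
      exact h7)
    refine ⟨hOt' (N804.OF_of_BF h5), 0, 1, 1, 1, one_pos, one_pos,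
      fun α β _ hα hβ _ ε hε => ?_⟩
    obtain ⟨T₀, hT₀, h6⟩ := h3 α β hα hβ ε hε
    exact ⟨T₀, fun T hT => by rw [zero_mul]; linarith [(abs_le.1 (h6 T hT)).2]⟩
  tfae_have 1 → 3 := by
    intro h
    have h3 := h2 h
    obtain ⟨-, h5⟩ := N804.win_exact (fun α β hα hβ ε hε => by
      obtain ⟨T₀, hT₀, h6⟩ := h3 α β hα hβ ε hε
      obtain ⟨T₁, _, hT₁⟩ := hN α β hα
      refine ⟨max T₀ T₁, fun T hT => ?_⟩
      have h7 := h6 T ((le_max_left _ _).trans hT)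
      rw [hT₁ T ((le_max_right _ _).trans hT), hI] at h7
      exact h7)
    refine ⟨hOt' (N804.OF_of_BF h5), 0, 1, 1, 1, one_pos, one_pos,
      fun α β _ hα hβ _ ε hε => ?_⟩
    obtain ⟨T₀, hT₀, h6⟩ := h3 α β hα hβ ε hε
    exact ⟨T₀, fun T hT => by rw [zero_mul]; linarith [(abs_le.1 (h6 T hT)).1]⟩
  tfae_have 2 → 1 := by
    rintro ⟨h0, K, c, R, ℓ, hc, hℓ, h⟩
    refine h1 (N804.win_upper_half (K := K) (R := R) hc hℓ (hOt h0)
      fun α β hR hα hβ hl ε hε => ?_).1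
    obtain ⟨T₀, hT₀⟩ := h α β hR hα hβ hl ε hε
    obtain ⟨T₁, _, hT₁⟩ := hN α β hα
    refine ⟨max T₀ T₁, fun T hT => ?_⟩
    have h7 := hT₀ T ((le_max_left _ _).trans hT)
    rw [hT₁ T ((le_max_right _ _).trans hT), hI] at h7
    exact h7
  tfae_have 3 → 1 := by
    rintro ⟨h0, K, c, R, ℓ, hc, hℓ, h⟩
    refine h1 (N804.win_lower_half (K := K) (R := R) hc hℓ (hOt h0)
      fun α β hR hα hβ hl ε hε => ?_).1
    obtain ⟨T₀, hT₀⟩ := h α β hR hα hβ hl ε hε
    obtain ⟨T₁, _, hT₁⟩ := hN α β hα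
    refine ⟨max T₀ T₁, fun T hT => ?_⟩
    have h7 := hT₀ T ((le_max_left _ _).trans hT)
    rw [hT₁ T ((le_max_right _ _).trans hT), hI] at h7
    exact h7
  tfae_finish

end Pool.Agent.N804.Shelf.OneSidedFarWindows
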